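import Pool.Agent.Helper27.VF.Goals

/-!
# Packet VF-CHN (project of helper27)

Two points of `A w` on the two sides of a cut at minimal distance `D`; the points of `A w` near a
geodesic between them, except near its ends, are in the separator.
-/

set_option autoImplicit false

namespace Pool.Agent.Helper71.VF

open Pool.Agent.Helper27.VF

universe u

theorem chn (hfac : FacStmt.{u}) : ChnStmt.{u} := by
  intro A W _ _ G G₀ w p hs k
  obtain ⟨⟨R, hR⟩, hball, hinf⟩ := hfac A W G G₀ w p hs
  refine ⟨(k + 1) * (2 * R + 1), fun c hc hk a b hab => ?_⟩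
  -- points of `A w` on both sides
  have hpt : ∀ c : Set W × Set W, IsCut G c → ∀ a : A, Inn p a c.1 → ∃ g : A, g • w ∈ c.1 := by
    intro c hc a ha
    have h1 : c.1.Infinite := inn_infinite hs ha
    have h2 : {x | x ∈ c.1 ∧ ∃ y, y ∉ c.1 ∧ G₀.Adj x y}.Finite := by
      refine (hc.fin.biUnion (fun y _ => hs.lf y)).subset ?_
      rintro x ⟨hx, y, hy, hxy⟩
      simp only [Set.mem_iUnion]
      refine ⟨y, ?_, hxy.symm⟩
      rw [mem_sep]
      exact ⟨hy, fun hy2 => hc.no x hx y hy2 (hs.le hxy)⟩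
    exact (hinf c.1 h1 h2).nonempty
  obtain ⟨g₀, hg₀⟩ := hpt c hc a hab.1
  obtain ⟨h₀, hh₀⟩ := hpt (c.2, c.1) hc.swap b hab.2
  -- minimal distance
  have hne : ∃ n : ℕ, ∃ g h : A, g • w ∈ c.1 ∧ h • w ∈ c.2 ∧ G₀.dist (g • w) (h • w) = n :=
    ⟨_, g₀, h₀, hg₀, hh₀, rfl⟩
  classical
  obtain ⟨g, h, hg, hh, hD⟩ := Nat.find_spec hne
  have hmin : ∀ g' h' : A, g' • w ∈ c.1 → h' • w ∈ c.2 →
      G₀.dist (g • w) (h • w) ≤ G₀.dist (g' • w) (h' • w) := by
    intro g' h' hg' hh'
    rw [hD]
    exact Nat.find_min' hne ⟨g', h', hg', hh', rfl⟩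
  refine ⟨g, h, hg, hh, ?_⟩
  by_contra hlt
  push Not at hlt
  obtain ⟨q, hq⟩ := hs.conn.exists_walk_length_eq_dist (g • w) (h • w)
  have ht : ∀ i, G₀.dist (g • w) (q.getVert i) ≤ i := by
    intro i
    refine (SimpleGraph.dist_le (q.take i)).trans ?_
    rw [SimpleGraph.Walk.take_length]
    exact min_le_left _ _
  have hd : ∀ i, G₀.dist (q.getVert i) (h • w) ≤ G₀.dist (g • w) (h • w) - i := by
    intro i
    refine (SimpleGraph.dist_le (q.drop i)).trans ?_
    rw [SimpleGraph.Walk.drop_length, hq]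
  choose α hα using fun i : ℕ => hR (q.getVert i)
  have tri : ∀ x y z : W, G₀.dist x z ≤ G₀.dist x y + G₀.dist y z := fun x y z =>
    hs.conn.dist_triangle
  have hsepi : ∀ i, R < i → i + R < G₀.dist (g • w) (h • w) → α i • w ∈ sep c := by
    intro i h1 h2
    rw [mem_sep]
    have e1 := hα i
    have e2 := ht i
    have e3 := hd i
    constructor
    · intro h3
      have e4 := hmin (α i) h h3 hh
      have e5 := tri (α i • w) (q.getVert i) (h • w)
      omega
    · intro h3
      have e4 := hmin g (α i) hg h3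
      have e5 := tri (g • w) (q.getVert i) (α i • w)
      have e6 : G₀.dist (q.getVert i) (α i • w) = G₀.dist (α i • w) (q.getVert i) :=
        SimpleGraph.dist_comm
      omega
  have hinj : ∀ i j, i + 2 * R < j → j ≤ G₀.dist (g • w) (h • w) → α i • w ≠ α j • w := by
    intro i j h1 h2 h3
    have e1 := hα i
    have e2 := hα j
    rw [← h3] at e2
    have e3 := ht i
    have e4 := hd j
    have e5 := tri (g • w) (q.getVert i) (h • w)
    have e6 := tri (q.getVert i) (q.getVert j) (h • w)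
    have e7 := tri (q.getVert i) (α i • w) (q.getVert j)
    have e8 : G₀.dist (q.getVert i) (α i • w) = G₀.dist (α i • w) (q.getVert i) :=
      SimpleGraph.dist_comm
    omega
  have hbd : ∀ t : ℕ, t ≤ k → R + 1 + t * (2 * R + 1) + R < G₀.dist (g • w) (h • w) := by
    intro t htk
    have e1 : t * (2 * R + 1) ≤ k * (2 * R + 1) := Nat.mul_le_mul_right _ htk
    have e2 : (k + 1) * (2 * R + 1) = k * (2 * R + 1) + (2 * R + 1) := by ring
    omega
  let φ : Fin (k + 1) → W := fun t => α (R + 1 + t * (2 * R + 1)) • w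
  have hlt' : ∀ s t : Fin (k + 1), s < t → φ s ≠ φ t := by
    intro s t hst
    refine hinj _ _ ?_ ?_
    · have e1 : ((s : ℕ) + 1) * (2 * R + 1) ≤ (t : ℕ) * (2 * R + 1) :=
        Nat.mul_le_mul_right _ hst
      have e2 : ((s : ℕ) + 1) * (2 * R + 1) = (s : ℕ) * (2 * R + 1) + (2 * R + 1) := by ring
      omega
    · have := hbd t (Nat.lt_succ_iff.1 t.2)
      omega
  have hφ : Function.Injective φ := by
    intro s t hst
    rcases lt_trichotomy s t with h1 | h1 | h1
    · exact absurd hst (hlt' s t h1)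
    · exact h1
    · exact absurd hst.symm (hlt' t s h1)
  have hφs : Set.range φ ⊆ sep c := by
    rintro _ ⟨t, rfl⟩
    refine hsepi _ ?_ (hbd t (Nat.lt_succ_iff.1 t.2))
    omega
  have hcard : (Set.range φ).ncard = k + 1 := by
    rw [← Set.image_univ, Set.ncard_image_of_injective _ hφ, Set.ncard_univ]
    simp
  have := Set.ncard_le_ncard hφs hc.fin
  omega

end Pool.Agent.Helper71.VF
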